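import Pool.Agent.Run7.h670.MY.StmN

/-!
# Piece N_LINE of project MY (helper670), by helper459 (after D_PLANE of helper865)
-/

set_option autoImplicit false

open MeasureTheory Set
open scoped ENNReal RealInnerProductSpace

namespace Run7.h459.MY

open Pool.Agent.Run7.h670.MY

/-- the rotation of the plane -/
noncomputable def rot (θ : ℝ) : ℝ × ℝ →ₗ[ℝ] ℝ × ℝ :=
  Matrix.toLin (Module.Basis.finTwoProd ℝ) (Module.Basis.finTwoProd ℝ)
    !![Real.cos θ, -Real.sin θ; Real.sin θ, Real.cos θ]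

theorem rot_apply (θ : ℝ) (z : ℝ × ℝ) : rot θ z =
    (z.1 * Real.cos θ - z.2 * Real.sin θ, z.1 * Real.sin θ + z.2 * Real.cos θ) := by
  unfold rot
  rw [Matrix.toLin_finTwoProd_apply]
  ext <;> simp <;> ring

theorem rot_det (θ : ℝ) : LinearMap.det (rot θ) = 1 := by
  unfold rot
  rw [LinearMap.det_toLin, Matrix.det_fin_two_of]
  nlinarith [Real.sin_sq_add_cos_sq θ]

theorem rot_mp (θ : ℝ) : MeasurePreserving (rot θ) (volume : Measure (ℝ × ℝ)) volume := by
  refine ⟨(LinearMap.continuous_of_finiteDimensional _).measurable, ?_⟩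
  rw [Measure.map_linearMap_addHaar_eq_smul_addHaar _ (by rw [rot_det]; exact one_ne_zero),
    rot_det]
  simp

/-- projection of a density in the plane to a line -/
theorem map_line (Φ : ℝ × ℝ → ℝ≥0∞) (hΦ : Measurable Φ) (θ : ℝ) :
    Measurable (ray (fun s t => Φ (s, t)) θ) ∧
    ((volume : Measure (ℝ × ℝ)).withDensity Φ).map
      (fun z => Real.cos θ * z.1 + Real.sin θ * z.2) =
      (volume : Measure ℝ).withDensity (ray (fun s t => Φ (s, t)) θ) := by
  have hP : Measurable fun z : ℝ × ℝ => Real.cos θ * z.1 + Real.sin θ * z.2 := by fun_prop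
  have hR : Measurable fun z : ℝ × ℝ => Φ (rot θ z) := hΦ.comp (rot_mp θ).measurable
  have hray : ∀ t, ray (fun s t => Φ (s, t)) θ t = ∫⁻ s, Φ (rot θ (t, s)) := by
    intro t
    unfold ray
    refine lintegral_congr fun s => ?_
    rw [rot_apply]
  have hmr : Measurable (ray (fun s t => Φ (s, t)) θ) := by
    have : ray (fun s t => Φ (s, t)) θ = fun t => ∫⁻ s, Φ (rot θ (t, s)) := funext hray
    rw [this]
    exact hR.lintegral_prod_right'
  refine ⟨hmr, ?_⟩
  ext A hA
  rw [Measure.map_apply hP hA, withDensity_apply _ (hP hA), withDensity_apply _ hA,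
    ← lintegral_indicator (hP hA), ← lintegral_indicator hA]
  have hI : Measurable ((fun z : ℝ × ℝ => Real.cos θ * z.1 + Real.sin θ * z.2) ⁻¹' A |>.indicator Φ) :=
    hΦ.indicator (hP hA)
  have hIc : Measurable fun z : ℝ × ℝ =>
      (((fun z : ℝ × ℝ => Real.cos θ * z.1 + Real.sin θ * z.2) ⁻¹' A).indicator Φ) (rot θ z) :=
    hI.comp (rot_mp θ).measurable
  rw [← (rot_mp θ).lintegral_comp hI, Measure.volume_eq_prod,
    lintegral_prod _ hIc.aemeasurable]
  refine lintegral_congr fun t => ?_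
  have hPt : ∀ s, Real.cos θ * (rot θ (t, s)).1 + Real.sin θ * (rot θ (t, s)).2 = t := by
    intro s
    rw [rot_apply]
    have := Real.sin_sq_add_cos_sq θ
    simp only
    linear_combination t * this
  by_cases ht : t ∈ A
  · rw [indicator_of_mem ht, hray]
    refine lintegral_congr fun s => ?_
    have h7 : rot θ (t, s) ∈
        (fun z : ℝ × ℝ => Real.cos θ * z.1 + Real.sin θ * z.2) ⁻¹' A := by
      show Real.cos θ * (rot θ (t, s)).1 + Real.sin θ * (rot θ (t, s)).2 ∈ A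
      rw [hPt]
      exact ht
    exact indicator_of_mem h7 _
  · rw [indicator_of_notMem ht]
    have h8 : ∀ s, ((fun z : ℝ × ℝ => Real.cos θ * z.1 + Real.sin θ * z.2) ⁻¹' A).indicator Φ
        (rot θ (t, s)) = 0 := by
      intro s
      have h7 : rot θ (t, s) ∉
          (fun z : ℝ × ℝ => Real.cos θ * z.1 + Real.sin θ * z.2) ⁻¹' A := by
        show ¬ (Real.cos θ * (rot θ (t, s)).1 + Real.sin θ * (rot θ (t, s)).2 ∈ A)
        rw [hPt]
        exact ht
      exact indicator_of_notMem h7 _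
    rw [lintegral_congr h8, lintegral_zero]

theorem t_N_LINE (hD : N_DIR) : N_LINE := by
  intro d ρ a b L hρ hfin hab hyp
  obtain ⟨μ, hμ⟩ : ∃ μ : Measure (V d), μ = volume.withDensity ρ := ⟨_, rfl⟩
  have hμf : IsFiniteMeasure μ := by
    rw [hμ]
    exact isFiniteMeasure_withDensity hfin
  have haa : ⟪a, a⟫ = 1 := by
    have := hab.1 0
    simp only [Matrix.cons_val_zero] at this
    rw [real_inner_self_eq_norm_sq, this, one_pow]
  have hbb : ⟪b, b⟫ = 1 := by
    have := hab.1 1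
    simp only [Matrix.cons_val_one, Matrix.cons_val_fin_one] at this
    rw [real_inner_self_eq_norm_sq, this, one_pow]
  have hab0 : ⟪a, b⟫ = 0 := by
    have := hab.2 (show (0 : Fin 2) ≠ 1 by decide)
    simpa using this
  have hba0 : ⟪b, a⟫ = 0 := by
    rw [real_inner_comm]
    exact hab0
  obtain ⟨T, hT⟩ : ∃ T : V d →L[ℝ] ℝ × ℝ, T = (innerSL ℝ a).prod (innerSL ℝ b) := ⟨_, rfl⟩
  have hTx : ∀ x, T x = (⟪a, x⟫, ⟪b, x⟫) := by
    intro x
    rw [hT]
    rfl
  have hsur : Function.Surjective T := by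
    rintro ⟨s, t⟩
    refine ⟨s • a + t • b, ?_⟩
    rw [hTx, inner_add_right, inner_add_right, inner_smul_right, inner_smul_right,
      inner_smul_right, inner_smul_right, haa, hbb, hab0, hba0]
    simp
  have hTm : Measurable T := T.continuous.measurable
  have hac : (volume : Measure (V d)).map T ≪ volume := by
    have h := (T : V d →ₗ[ℝ] ℝ × ℝ).exists_map_addHaar_eq_smul_addHaar
      (volume : Measure (V d)) (volume : Measure (ℝ × ℝ)) hsur
    obtain ⟨c, -, hc⟩ := h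
    have hc' : (volume : Measure (V d)).map T = c • volume := hc
    rw [hc']
    exact Measure.smul_absolutelyContinuous
  have hac2 : μ.map T ≪ volume := by
    refine Measure.AbsolutelyContinuous.trans ?_ hac
    rw [hμ]
    exact (withDensity_absolutelyContinuous _ _).map hTm
  have : IsFiniteMeasure (μ.map T) := Measure.isFiniteMeasure_map μ T
  obtain ⟨Φ, hf⟩ : ∃ Φ : ℝ × ℝ → ℝ≥0∞, Φ = (μ.map T).rnDeriv volume := ⟨_, rfl⟩
  have hΦm : Measurable Φ := by
    rw [hf]
    exact Measure.measurable_rnDeriv _ _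
  have hΦ2 : volume.withDensity Φ = μ.map T := by
    rw [hf]
    exact Measure.withDensity_rnDeriv_eq _ _ hac2
  -- transport of integrals
  have htr : ∀ g : ℝ × ℝ → ℝ≥0∞, Measurable g →
      ∫⁻ x, ρ x * g (⟪a, x⟫, ⟪b, x⟫) = ∫⁻ z, Φ z * g z := by
    intro g hg
    have hg' : Measurable fun x : V d => g (⟪a, x⟫, ⟪b, x⟫) := by
      have h1 : Measurable fun x : V d => (⟪a, x⟫, ⟪b, x⟫) :=
        (Measurable.const_inner measurable_id).prodMk (Measurable.const_inner measurable_id)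
      exact hg.comp h1
    have e1 : ∫⁻ x, ρ x * g (⟪a, x⟫, ⟪b, x⟫) = ∫⁻ x, g (⟪a, x⟫, ⟪b, x⟫) ∂μ := by
      rw [hμ, lintegral_withDensity_eq_lintegral_mul _ hρ hg']
      rfl
    have e2 : ∫⁻ z, Φ z * g z = ∫⁻ z, g z ∂(μ.map T) := by
      rw [← hΦ2, lintegral_withDensity_eq_lintegral_mul _ hΦm hg]
      rfl
    rw [e1, e2, lintegral_map hg hTm]
    refine lintegral_congr fun x => ?_
    rw [hTx]
  have hmass : ∫⁻ z, Φ z = ∫⁻ x, ρ x := by
    have := htr (fun _ => 1) measurable_const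
    simp only [mul_one] at this
    exact this.symm
  -- the square
  have hsq : ∫⁻ z, Φ z ^ 2 ≤ L := by
    have hn : ∀ n : ℕ, ∫⁻ z, Φ z * min (Φ z) (n : ℝ≥0∞) ≤ L := by
      intro n
      have hgm : Measurable fun z : ℝ × ℝ => min (Φ z) (n : ℝ≥0∞) := hΦm.min measurable_const
      have h1 := hyp (fun s t => min (Φ (s, t)) (n : ℝ≥0∞)) hgm
      have h2 : ∫⁻ x, ρ x * min (Φ (⟪a, x⟫, ⟪b, x⟫)) (n : ℝ≥0∞) =
          ∫⁻ z, Φ z * min (Φ z) (n : ℝ≥0∞) := htr _ hgm
      rw [h2] at h1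
      have h3 : ∫⁻ z : ℝ × ℝ, min (Φ (z.1, z.2)) (n : ℝ≥0∞) ^ 2 ≤
          ∫⁻ z, Φ z * min (Φ z) (n : ℝ≥0∞) := by
        refine lintegral_mono fun z => ?_
        rw [sq]
        exact mul_le_mul_left (min_le_left _ _) _
      have hfinI : ∫⁻ z, Φ z * min (Φ z) (n : ℝ≥0∞) ≠ ⊤ := by
        have h4 : ∫⁻ z, Φ z * min (Φ z) (n : ℝ≥0∞) ≤ ∫⁻ z, Φ z * (n : ℝ≥0∞) := by
          refine lintegral_mono fun z => ?_
          exact mul_le_mul_right (min_le_right _ _) _
        rw [lintegral_mul_const _ hΦm, hmass] at h4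
        exact ne_top_of_le_ne_top (ENNReal.mul_ne_top hfin (ENNReal.natCast_ne_top n)) h4
      by_cases h0 : ∫⁻ z, Φ z * min (Φ z) (n : ℝ≥0∞) = 0
      · rw [h0]
        exact zero_le
      · have h5 : (∫⁻ z, Φ z * min (Φ z) (n : ℝ≥0∞)) * (∫⁻ z, Φ z * min (Φ z) (n : ℝ≥0∞)) ≤
            L * ∫⁻ z, Φ z * min (Φ z) (n : ℝ≥0∞) := by
          rw [← sq]
          exact h1.trans (mul_le_mul_right h3 _)
        exact (ENNReal.mul_le_mul_iff_left h0 hfinI).mp h5
    have hsup : ∀ z, Φ z ^ 2 = ⨆ n : ℕ, Φ z * min (Φ z) (n : ℝ≥0∞) := by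
      intro z
      rw [← ENNReal.mul_iSup, sq]
      congr 1
      have h6 : ⨆ n : ℕ, min (Φ z) (n : ℝ≥0∞) = Φ z ⊓ ⨆ n : ℕ, (n : ℝ≥0∞) := (inf_iSup_eq _ _).symm
      rw [h6, ENNReal.iSup_natCast, inf_top_eq]
    rw [lintegral_congr hsup, lintegral_iSup (f := fun (n : ℕ) z => Φ z * min (Φ z) (n : ℝ≥0∞))
      (fun n => hΦm.mul (hΦm.min measurable_const))]
    · exact iSup_le hn
    · intro n m hnm z
      exact mul_le_mul_right (min_le_min_left _ (by exact_mod_cast hnm)) _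
  obtain ⟨θ, hθ⟩ := hD (fun s t => Φ (s, t)) hΦm
  obtain ⟨hFm, hmap⟩ := map_line Φ hΦm θ
  refine ⟨Real.cos θ • a + Real.sin θ • b, ray (fun s t => Φ (s, t)) θ, ?_, hFm, ?_, ?_⟩
  · have h1 : ‖Real.cos θ • a + Real.sin θ • b‖ ^ 2 = 1 := by
      rw [← real_inner_self_eq_norm_sq, inner_add_left, inner_add_right, inner_add_right,
        inner_smul_left, inner_smul_left, inner_smul_left, inner_smul_left, inner_smul_right,
        inner_smul_right, inner_smul_right, inner_smul_right, haa, hbb, hab0, hba0]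
      simp only [conj_trivial, mul_one, mul_zero, add_zero, zero_add]
      have := Real.sin_sq_add_cos_sq θ
      linear_combination this
    have h2 : 0 ≤ ‖Real.cos θ • a + Real.sin θ • b‖ := norm_nonneg _
    exact (pow_eq_one_iff_of_nonneg h2 two_ne_zero).mp h1
  · rw [← hmap, hΦ2, Measure.map_map (by fun_prop) hTm, ← hμ]
    congr 1
    funext x
    simp only [Function.comp_apply, hTx]
    rw [inner_add_left, inner_smul_left, inner_smul_left]
    simp
  · refine hθ.trans ?_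
    have h1 : ∫⁻ z : ℝ × ℝ, Φ (z.1, z.2) = ∫⁻ x, ρ x := hmass
    have h2 : ∫⁻ z : ℝ × ℝ, Φ (z.1, z.2) ^ 2 ≤ L := hsq
    rw [h1]
    exact mul_le_mul_right h2 _

end Run7.h459.MY
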